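import Pool.Agent.W2helper83.BT.Defs6

/-!
# Project BT, piece EXCM: linear algebra of three points
-/

set_option autoImplicit false

namespace Pool.Agent.W2helper51.BT6

open Pool.Agent.W2helper83.BT IsDedekindDomain NumberField

variable {K : Type} [Field K]

lemma quad {a b c x y z : K} (hxy : x ≠ y) (hxz : x ≠ z) (hyz : y ≠ z)
    (h1 : a * x ^ 2 + b * x + c = 0) (h2 : a * y ^ 2 + b * y + c = 0)
    (h3 : a * z ^ 2 + b * z + c = 0) : a = 0 ∧ b = 0 ∧ c = 0 := by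
  have e1 : a * (x + y) + b = 0 := by
    have : (x - y) * (a * (x + y) + b) = 0 := by linear_combination h1 - h2
    exact (mul_eq_zero.1 this).resolve_left (sub_ne_zero.2 hxy)
  have e2 : a * (x + z) + b = 0 := by
    have : (x - z) * (a * (x + z) + b) = 0 := by linear_combination h1 - h3
    exact (mul_eq_zero.1 this).resolve_left (sub_ne_zero.2 hxz)
  have e3 : a = 0 := by
    have : (y - z) * a = 0 := by linear_combination e1 - e2
    exact (mul_eq_zero.1 this).resolve_left (sub_ne_zero.2 hyz)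
  have e4 : b = 0 := by
    rw [e3] at e1
    linear_combination e1
  refine ⟨e3, e4, ?_⟩
  rw [e3, e4] at h1
  linear_combination h1

/-- the linear conditions -/
def Cnd (N : K × K × K × K) (X Z : K) : Prop := N.1 * X + N.2.1 = Z * (N.2.2.1 * X + N.2.2.2)

/-- the determinant -/
def dt (N : K × K × K × K) : K := N.1 * N.2.2.2 - N.2.1 * N.2.2.1

lemma prop_of {N M : K × K × K × K} {X0 X1 X2 Z0 Z1 Z2 : K} (h01 : X0 ≠ X1) (h02 : X0 ≠ X2)
    (h12 : X1 ≠ X2) (hN : dt N ≠ 0) (hM : dt M ≠ 0) (n0 : Cnd N X0 Z0) (n1 : Cnd N X1 Z1)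
    (n2 : Cnd N X2 Z2) (m0 : Cnd M X0 Z0) (m1 : Cnd M X1 Z1) (m2 : Cnd M X2 Z2) :
    ∃ s : K, s ≠ 0 ∧ (s * N.1, s * N.2.1, s * N.2.2.1, s * N.2.2.2) = M := by
  obtain ⟨N1, N2, N3, N4⟩ := N
  obtain ⟨M1, M2, M3, M4⟩ := M
  simp only [Cnd, dt] at *
  have key : ∀ X Z : K, N1 * X + N2 = Z * (N3 * X + N4) → M1 * X + M2 = Z * (M3 * X + M4) →
      (N1 * M3 - M1 * N3) * X ^ 2 + (N1 * M4 + N2 * M3 - M1 * N4 - M2 * N3) * X +
        (N2 * M4 - M2 * N4) = 0 := by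
    intro X Z h1 h2
    linear_combination (M3 * X + M4) * h1 - (N3 * X + N4) * h2
  obtain ⟨e1, e2, e3⟩ := quad h01 h02 h12 (key X0 Z0 n0 m0) (key X1 Z1 n1 m1) (key X2 Z2 n2 m2)
  have f1 : (N4 * M1 - N2 * M3) * N1 = (N1 * N4 - N2 * N3) * M1 := by
    linear_combination (-N2) * e1
  have f2 : (N4 * M1 - N2 * M3) * N2 = (N1 * N4 - N2 * N3) * M2 := by
    linear_combination (-N2) * e2 + N1 * e3
  have f3 : (N4 * M1 - N2 * M3) * N3 = (N1 * N4 - N2 * N3) * M3 := by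
    linear_combination (-N4) * e1
  have f4 : (N4 * M1 - N2 * M3) * N4 = (N1 * N4 - N2 * N3) * M4 := by
    linear_combination (-N4) * e2 + N3 * e3
  have g : ∀ a b : K, (N4 * M1 - N2 * M3) * a = (N1 * N4 - N2 * N3) * b →
      (N4 * M1 - N2 * M3) / (N1 * N4 - N2 * N3) * a = b := by
    intro a b h
    rw [div_mul_eq_mul_div, h, mul_div_cancel_left₀ _ hN]
  refine ⟨(N4 * M1 - N2 * M3) / (N1 * N4 - N2 * N3), ?_, ?_⟩
  · intro h0
    apply hM
    have g1 := g _ _ f1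
    have g2 := g _ _ f2
    rw [h0, zero_mul] at g1 g2
    rw [← g1, ← g2]
    ring
  · rw [g _ _ f1, g _ _ f2, g _ _ f3, g _ _ f4]

section

variable (d : ℕ) (α β γ δ : K)

lemma FM_smul (c : K) (P : K × K) :
    FM d α β γ δ (c • P) = c ^ d • FM d α β γ δ P := by
  ext
  · simp only [FM, Prod.smul_fst, Prod.smul_snd, smul_eq_mul]
    ring
  · simp only [FM, Prod.smul_fst, Prod.smul_snd, smul_eq_mul]
    ring

lemma FM_iter_smul (n : ℕ) (c : K) (P : K × K) :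
    (FM d α β γ δ)^[n] (c • P) = c ^ d ^ n • (FM d α β γ δ)^[n] P := by
  induction n generalizing c P with
  | zero => simp
  | succ n ih =>
    rw [Function.iterate_succ_apply, Function.iterate_succ_apply, FM_smul, ih, ← pow_mul,
      pow_succ']

lemma FM_iter_zero (hd : 2 ≤ d) (n : ℕ) : (FM d α β γ δ)^[n] (0 : K × K) = 0 := by
  apply Function.iterate_fixed
  ext
  · simp [FM, zero_pow (show d ≠ 0 by omega)]
  · simp [FM, zero_pow (show d ≠ 0 by omega)]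

lemma per_mul {x t : K} {n : ℕ} (ht : t ≠ 0)
    (h : (FM d α β γ δ)^[n] (x, 1) = t • ((x, 1) : K × K)) (m : ℕ) :
    ∃ t' : K, t' ≠ 0 ∧ (FM d α β γ δ)^[n * m] (x, 1) = t' • ((x, 1) : K × K) := by
  induction m with
  | zero => exact ⟨1, one_ne_zero, by simp⟩
  | succ m ih =>
    obtain ⟨t', ht', h'⟩ := ih
    refine ⟨t ^ d ^ (n * m) * t', mul_ne_zero (pow_ne_zero _ ht) ht', ?_⟩
    rw [Nat.mul_succ, Function.iterate_add_apply, h, FM_iter_smul, h', smul_smul]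

variable {d α β γ δ}

lemma per_inj {x y c : K} (hx : PerM d α β γ δ x) (hy : PerM d α β γ δ y)
    (h : FM d α β γ δ (x, 1) = c • FM d α β γ δ (y, 1)) : x = y := by
  obtain ⟨n, hn, t, ht, h1⟩ := hx
  obtain ⟨m, hm, s, hs, h2⟩ := hy
  obtain ⟨t', ht', h1'⟩ := per_mul d α β γ δ ht h1 m
  obtain ⟨s', hs', h2'⟩ := per_mul d α β γ δ hs h2 n
  rw [mul_comm m n] at h2'
  obtain ⟨M, hM⟩ : ∃ M, n * m = M + 1 := ⟨n * m - 1, by
    have := Nat.mul_pos hn hm
    omega⟩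
  rw [hM, Function.iterate_succ_apply] at h1' h2'
  rw [h, FM_iter_smul, h2', smul_smul] at h1'
  have e1 := congrArg Prod.fst h1'
  have e2 := congrArg Prod.snd h1'
  simp only [Prod.smul_fst, Prod.smul_snd, smul_eq_mul, mul_one] at e1 e2
  rw [e2] at e1
  exact (mul_left_cancel₀ ht' e1).symm

lemma FM_ne_zero (hd : 2 ≤ d) {x : K} (hx : PerM d α β γ δ x) : FM d α β γ δ (x, 1) ≠ 0 := by
  intro h
  obtain ⟨n, hn, t, ht, h1⟩ := hx
  obtain ⟨M, rfl⟩ : ∃ M, n = M + 1 := ⟨n - 1, by omega⟩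
  rw [Function.iterate_succ_apply, h, FM_iter_zero d α β γ δ hd] at h1
  have e2 := congrArg Prod.snd h1
  simp only [Prod.smul_snd, smul_eq_mul, mul_one, Prod.snd_zero] at e2
  exact ht e2.symm

lemma per_image {x a b : K} (hx : PerM d α β γ δ x) (h : FM d α β γ δ (x, 1) = (a, b))
    (hb : b ≠ 0) : PerM d α β γ δ (a / b) := by
  obtain ⟨n, hn, t, ht, h1⟩ := hx
  have h2 : FM d α β γ δ (x, 1) = b • ((a / b, 1) : K × K) := by
    rw [h]
    ext
    · simp only [Prod.smul_fst, smul_eq_mul]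
      field_simp
    · simp
  refine ⟨n, hn, t ^ d * b / b ^ d ^ n, div_ne_zero (mul_ne_zero (pow_ne_zero _ ht) hb)
    (pow_ne_zero _ hb), ?_⟩
  have h3 : (FM d α β γ δ)^[n] (FM d α β γ δ (x, 1)) = (t ^ d * b) • ((a / b, 1) : K × K) := by
    rw [← Function.iterate_succ_apply, Function.iterate_succ_apply', h1, FM_smul, h2, smul_smul]
  rw [h2, FM_iter_smul] at h3
  have h4 : t ^ d * b / b ^ d ^ n = (b ^ d ^ n)⁻¹ * (t ^ d * b) := div_eq_inv_mul _ _
  rw [h4, mul_smul, ← h3, smul_smul, inv_mul_cancel₀ (pow_ne_zero _ hb), one_smul]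

end

/-- EXCM -/
theorem excm : EXCMStm := by
  classical
  intro d l hd hR K _ _ S hS
  obtain ⟨R, hRfin, hR⟩ := hR K S hS
  let R1 : Set K := insert 1 R
  have hR1 : R1.Finite := hRfin.insert 1
  let Q : Set K := (fun r => r ^ d) '' R1
  have hQ : Q.Finite := hR1.image _
  let Φ : K × K × K × K × K × K → K × K × K × K := fun e =>
    if h : ∃ N : K × K × K × K, dt N ≠ 0 ∧ Cnd N e.1 e.2.2.2.1 ∧ Cnd N e.2.1 e.2.2.2.2.1 ∧
      Cnd N e.2.2.1 e.2.2.2.2.2 then h.choose else 0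
  refine ⟨Φ '' (Q ×ˢ Q ×ˢ Q ×ˢ R1 ×ˢ R1 ×ˢ R1),
    (hQ.prod (hQ.prod (hQ.prod (hR1.prod (hR1.prod hR1))))).image _, ?_⟩
  intro α β γ δ hD hC T hT hTp
  have hrat : ∀ x y : K, x ≠ 0 → y ≠ 0 → PerM d α β γ δ x → PerM d α β γ δ y → x / y ∈ R1 := by
    intro x y hx hy px py
    by_cases h : x = y
    · rw [h, div_self hy]
      exact Set.mem_insert _ _
    · exact Set.mem_insert_of_mem _ (hR α β γ δ x y hD hC px py h hx hy)
  -- the points which are mapped to `0` or infinity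
  have hcA : (T.filter fun x => α * x ^ d + β = 0).card ≤ 1 := by
    rw [Finset.card_le_one]
    intro x hx y hy
    rw [Finset.mem_filter] at hx hy
    have px := (hTp x hx.1).2
    have py := (hTp y hy.1).2
    have nx := FM_ne_zero hd px
    have ny := FM_ne_zero hd py
    have ex : FM d α β γ δ (x, 1) = (0, γ * x ^ d + δ) := by simp [FM, hx.2]
    have ey : FM d α β γ δ (y, 1) = (0, γ * y ^ d + δ) := by simp [FM, hy.2]
    have hy0 : γ * y ^ d + δ ≠ 0 := by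
      intro h
      apply ny
      rw [ey, h]
      rfl
    apply per_inj px py (c := (γ * x ^ d + δ) / (γ * y ^ d + δ))
    rw [ex, ey]
    ext
    · simp
    · simp only [Prod.smul_snd, smul_eq_mul]
      field_simp
  have hcB : (T.filter fun x => γ * x ^ d + δ = 0).card ≤ 1 := by
    rw [Finset.card_le_one]
    intro x hx y hy
    rw [Finset.mem_filter] at hx hy
    have px := (hTp x hx.1).2
    have py := (hTp y hy.1).2
    have nx := FM_ne_zero hd px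
    have ny := FM_ne_zero hd py
    have ex : FM d α β γ δ (x, 1) = (α * x ^ d + β, 0) := by simp [FM, hx.2]
    have ey : FM d α β γ δ (y, 1) = (α * y ^ d + β, 0) := by simp [FM, hy.2]
    have hy0 : α * y ^ d + β ≠ 0 := by
      intro h
      apply ny
      rw [ey, h]
      rfl
    apply per_inj px py (c := (α * x ^ d + β) / (α * y ^ d + β))
    rw [ex, ey]
    ext
    · simp only [Prod.smul_fst, smul_eq_mul]
      field_simp
    · simp
  have hT' : 2 < (T \ ((T.filter fun x => α * x ^ d + β = 0) ∪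
      (T.filter fun x => γ * x ^ d + δ = 0))).card := by
    have h1 := Finset.le_card_sdiff ((T.filter fun x => α * x ^ d + β = 0) ∪
      (T.filter fun x => γ * x ^ d + δ = 0)) T
    have h2 := Finset.card_union_le (T.filter fun x => α * x ^ d + β = 0)
      (T.filter fun x => γ * x ^ d + δ = 0)
    omega
  rw [Finset.two_lt_card] at hT'
  obtain ⟨p0, m0, p1, m1, p2, m2, h01, h02, h12⟩ := hT'
  have hm : ∀ p, p ∈ T \ ((T.filter fun x => α * x ^ d + β = 0) ∪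
      (T.filter fun x => γ * x ^ d + δ = 0)) →
      p ≠ 0 ∧ PerM d α β γ δ p ∧ α * p ^ d + β ≠ 0 ∧ γ * p ^ d + δ ≠ 0 := by
    intro p hp
    rw [Finset.mem_sdiff, Finset.mem_union, Finset.mem_filter, Finset.mem_filter] at hp
    push Not at hp
    exact ⟨(hTp p hp.1).1, (hTp p hp.1).2, hp.2.1 hp.1, hp.2.2 hp.1⟩
  obtain ⟨z0, q0, a0, b0⟩ := hm p0 m0
  obtain ⟨z1, q1, a1, b1⟩ := hm p1 m1
  obtain ⟨z2, q2, a2, b2⟩ := hm p2 m2
  have hpow : ∀ x y : K, PerM d α β γ δ x → PerM d α β γ δ y → x ≠ y →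
      (x / p0) ^ d ≠ (y / p0) ^ d := by
    intro x y px py hne h
    rw [div_pow, div_pow] at h
    have h' : x ^ d = y ^ d := by
      have hp : p0 ^ d ≠ 0 := pow_ne_zero _ z0
      field_simp at h
      exact h
    apply hne
    apply per_inj px py (c := 1)
    rw [one_smul]
    simp [FM, h']
  have himg : ∀ p, p ≠ 0 → PerM d α β γ δ p → α * p ^ d + β ≠ 0 → γ * p ^ d + δ ≠ 0 →
      (α * p ^ d + β) / (γ * p ^ d + δ) / p0 ∈ R1 := by
    intro p zp qp ap bp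
    refine hrat _ _ (div_ne_zero ap bp) z0 ?_ q0
    exact per_image qp (by simp [FM]) bp
  have hcnd : ∀ p, γ * p ^ d + δ ≠ 0 → Cnd (α * p0 ^ d, β, γ * p0 ^ (d + 1), δ * p0)
      ((p / p0) ^ d) ((α * p ^ d + β) / (γ * p ^ d + δ) / p0) := by
    intro p bp
    simp only [Cnd]
    have hp : p0 ^ d ≠ 0 := pow_ne_zero _ z0
    have e1 : α * p0 ^ d * (p / p0) ^ d = α * p ^ d := by
      rw [div_pow]
      field_simp
    have e2 : γ * p0 ^ (d + 1) * (p / p0) ^ d = p0 * (γ * p ^ d) := by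
      rw [div_pow, pow_succ]
      field_simp
    rw [e1, e2]
    have e3 : (α * p ^ d + β) / (γ * p ^ d + δ) / p0 * (p0 * (γ * p ^ d) + δ * p0) =
        (α * p ^ d + β) := by
      have e4 : p0 * (γ * p ^ d) + δ * p0 = p0 * (γ * p ^ d + δ) := by ring
      rw [e4, div_mul_eq_mul_div, mul_comm p0, ← mul_assoc, mul_div_cancel_right₀ _ z0,
        div_mul_cancel₀ _ bp]
    rw [e3]
  have hdt : dt (α * p0 ^ d, β, γ * p0 ^ (d + 1), δ * p0) ≠ 0 := by
    have : dt (α * p0 ^ d, β, γ * p0 ^ (d + 1), δ * p0) = p0 ^ (d + 1) * (α * δ - β * γ) := by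
      simp only [dt]
      ring
    rw [this]
    exact mul_ne_zero (pow_ne_zero _ z0) hD
  let e : K × K × K × K × K × K := ((p0 / p0) ^ d, (p1 / p0) ^ d, (p2 / p0) ^ d,
    (α * p0 ^ d + β) / (γ * p0 ^ d + δ) / p0, (α * p1 ^ d + β) / (γ * p1 ^ d + δ) / p0,
    (α * p2 ^ d + β) / (γ * p2 ^ d + δ) / p0)
  have hex : ∃ N : K × K × K × K, dt N ≠ 0 ∧ Cnd N e.1 e.2.2.2.1 ∧ Cnd N e.2.1 e.2.2.2.2.1 ∧
      Cnd N e.2.2.1 e.2.2.2.2.2 :=
    ⟨(α * p0 ^ d, β, γ * p0 ^ (d + 1), δ * p0), hdt, hcnd p0 b0, hcnd p1 b1, hcnd p2 b2⟩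
  have hΦ : Φ e = hex.choose := by
    simp only [Φ]
    rw [dif_pos hex]
  obtain ⟨c0, c1, c2, c3⟩ := hex.choose_spec
  obtain ⟨s, hs, hs'⟩ := prop_of (hpow p0 p1 q0 q1 h01) (hpow p0 p2 q0 q2 h02)
    (hpow p1 p2 q1 q2 h12) hdt c0 (hcnd p0 b0) (hcnd p1 b1) (hcnd p2 b2) c1 c2 c3
  refine ⟨p0, s, z0, hs, e, ?_, ?_⟩
  · refine ⟨⟨_, hrat _ _ z0 z0 q0 q0, rfl⟩, ⟨_, hrat _ _ z1 z0 q1 q0, rfl⟩,
      ⟨_, hrat _ _ z2 z0 q2 q0, rfl⟩, himg p0 z0 q0 a0 b0, himg p1 z1 q1 a1 b1,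
      himg p2 z2 q2 a2 b2⟩
  · rw [hΦ, ← hs']
    simp only [mul_assoc]

end Pool.Agent.W2helper51.BT6
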